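import Pool.Agent.H203R4.DF.Stmts

set_option autoImplicit false

namespace Pool.Agent.H817R4.DF

open Pool.Agent.Helper832.CD Pool.Agent.H203R4.DF

universe u

section general

variable {A : Type u} [NonUnitalNormedRing A] [NormedSpace ℂ A]

lemma hom_comp {X Y Z : LMod A} {f : X.carrier → Y.carrier} {g : Y.carrier → Z.carrier}
    (hf : LMod.IsHom X Y f) (hg : LMod.IsHom Y Z g) : LMod.IsHom X Z (fun x => g (f x)) :=
  ⟨hg.1.comp hf.1, fun a x => by
    show g (f (X.act a x)) = Z.act a (g (f x))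
    rw [hf.2, hg.2]⟩

lemma act_sub (M : LMod A) (a : A) (x y : M.carrier) : M.act a (x - y) = M.act a x - M.act a y :=
  (M.bdd.isBoundedLinearMap_right a).toIsLinearMap.map_sub x y

lemma hom_sub {X Y : LMod A} {f g : X.carrier → Y.carrier}
    (hf : LMod.IsHom X Y f) (hg : LMod.IsHom X Y g) : LMod.IsHom X Y (fun x => f x - g x) :=
  ⟨hf.1.sub hg.1, fun a x => by
    show f (X.act a x) - g (X.act a x) = Y.act a (f x - g x)
    rw [hf.2, hg.2, act_sub]⟩

lemma hom_id (X : LMod A) : LMod.IsHom X X (fun x => x) :=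
  ⟨IsBoundedLinearMap.id, fun _ _ => rfl⟩

lemma hom_zero (X Y : LMod A) : LMod.IsHom X Y (fun _ => 0) :=
  ⟨IsBoundedLinearMap.zero, fun a _ =>
    ((Y.bdd.isBoundedLinearMap_right a).toIsLinearMap.map_zero).symm⟩

/-- A lifting property of a left Banach module. -/
def Lifts (P : LMod A) : Prop :=
  ∀ (Y Z : LMod A) (D : Y.carrier → Z.carrier) (φ : P.carrier → Z.carrier)
    (σ : Z.carrier → Y.carrier), LMod.IsHom Y Z D → LMod.IsHom P Z φ → IsBoundedLinearMap ℂ σ →
    (∀ p, D (σ (φ p)) = φ p) → ∃ ψ : P.carrier → Y.carrier, LMod.IsHom P Y ψ ∧ ∀ p, D (ψ p) = φ p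

/-- The submodule of pairs with the same image. -/
def pbSub {P Y Z : LMod A} (D : Y.carrier → Z.carrier) (φ : P.carrier → Z.carrier)
    (hD : LMod.IsHom Y Z D) (hφ : LMod.IsHom P Z φ) : Submodule ℂ (Y.carrier × P.carrier) where
  carrier := {q | D q.1 = φ q.2}
  add_mem' := by
    intro a b ha hb
    show D (a.1 + b.1) = φ (a.2 + b.2)
    rw [hD.1.map_add, hφ.1.map_add, ha, hb]
  zero_mem' := by
    show D 0 = φ 0
    rw [hD.1.toIsLinearMap.map_zero, hφ.1.toIsLinearMap.map_zero]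
  smul_mem' := by
    intro c a ha
    show D (c • a.1) = φ (c • a.2)
    rw [hD.1.map_smul, hφ.1.map_smul, ha]

/-- The pullback module. -/
noncomputable def pb {P Y Z : LMod A} (D : Y.carrier → Z.carrier) (φ : P.carrier → Z.carrier)
    (hD : LMod.IsHom Y Z D) (hφ : LMod.IsHom P Z φ) : LMod A where
  carrier := pbSub D φ hD hφ
  cpl := by
    have h1 : IsClosed (pbSub D φ hD hφ : Set (Y.carrier × P.carrier)) :=
      isClosed_eq (hD.1.continuous.comp continuous_fst) (hφ.1.continuous.comp continuous_snd)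
    exact h1.completeSpace_coe
  act := fun a q => ⟨(Y.act a q.1.1, P.act a q.1.2), by
    show D (Y.act a q.1.1) = φ (P.act a q.1.2)
    have h : D q.1.1 = φ q.1.2 := q.2
    rw [hD.2, hφ.2, h]⟩
  bdd := by
    obtain ⟨C1, hC1, h1⟩ := Y.bdd.bound
    obtain ⟨C2, hC2, h2⟩ := P.bdd.bound
    refine ⟨?_, ?_, ?_, ?_, ⟨max C1 C2, lt_max_of_lt_left hC1, ?_⟩⟩
    · intro a b q
      exact Subtype.ext (Prod.ext (Y.bdd.add_left a b q.1.1) (P.bdd.add_left a b q.1.2))
    · intro c a q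
      exact Subtype.ext (Prod.ext (Y.bdd.smul_left c a q.1.1) (P.bdd.smul_left c a q.1.2))
    · intro a q r
      exact Subtype.ext (Prod.ext (Y.bdd.add_right a q.1.1 r.1.1) (P.bdd.add_right a q.1.2 r.1.2))
    · intro c a q
      exact Subtype.ext (Prod.ext (Y.bdd.smul_right c a q.1.1) (P.bdd.smul_right c a q.1.2))
    · intro a q
      have h3 : ‖q.1.1‖ ≤ ‖q‖ := norm_fst_le q.1
      have h4 : ‖q.1.2‖ ≤ ‖q‖ := norm_snd_le q.1
      refine max_le ?_ ?_
      · refine (h1 a q.1.1).trans ?_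
        exact mul_le_mul (mul_le_mul_of_nonneg_right (le_max_left _ _) (norm_nonneg _)) h3
          (norm_nonneg _) (by positivity)
      · refine (h2 a q.1.2).trans ?_
        exact mul_le_mul (mul_le_mul_of_nonneg_right (le_max_right _ _) (norm_nonneg _)) h4
          (norm_nonneg _) (by positivity)
  act_mul := fun a b q => Subtype.ext (Prod.ext (Y.act_mul a b q.1.1) (P.act_mul a b q.1.2))

theorem proj_lifts (P : LMod A) (hP : P.Projective) : Lifts P := by
  intro Y Z D φ σ hD hφ hσ h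
  have h1 : IsBoundedLinearMap ℂ (fun q : (pb D φ hD hφ).carrier => q.1.2) :=
    ((ContinuousLinearMap.snd ℂ Y.carrier P.carrier).comp
      (pbSub D φ hD hφ).subtypeL).isBoundedLinearMap
  have h2 : IsBoundedLinearMap ℂ (fun q : (pb D φ hD hφ).carrier => q.1.1) :=
    ((ContinuousLinearMap.fst ℂ Y.carrier P.carrier).comp
      (pbSub D φ hD hφ).subtypeL).isBoundedLinearMap
  have h3 : Admissible (fun q : (pb D φ hD hφ).carrier => q.1.2) := by
    refine ⟨fun p => ⟨(σ (φ p), p), h p⟩, ?_, fun _ => rfl⟩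
    let e : P.carrier →L[ℂ] Y.carrier × P.carrier :=
      (hσ.toContinuousLinearMap.comp hφ.1.toContinuousLinearMap).prod
        (ContinuousLinearMap.id ℂ P.carrier)
    exact (e.codRestrict (pbSub D φ hD hφ) (fun p => h p)).isBoundedLinearMap
  obtain ⟨ψ, hψ, hψ2⟩ := hP (pb D φ hD hφ) P (fun q => q.1.2) (fun p => p) ⟨h1, fun _ _ => rfl⟩ h3
    (hom_id P)
  refine ⟨fun p => (ψ p).1.1, ⟨h2.comp hψ.1, fun a x => ?_⟩, fun p => ?_⟩
  · show (ψ (P.act a x)).1.1 = Y.act a (ψ x).1.1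
    exact congrArg (fun q : (pb D φ hD hφ).carrier => q.1.1) (hψ.2 a x)
  · have h4 : D (ψ p).1.1 = φ (ψ p).1.2 := (ψ p).2
    rw [h4, hψ2]

variable (A) in
/-- An admissible complex of modules. -/
structure Cx where
  M : ℕ → LMod A
  δ : ∀ k, (M (k + 1)).carrier → (M k).carrier
  τ : ∀ k, (M k).carrier → (M (k + 1)).carrier
  hom : ∀ k, LMod.IsHom (M (k + 1)) (M k) (δ k)
  bdd : ∀ k, IsBoundedLinearMap ℂ (τ k)
  h0 : ∀ x, δ 0 (τ 0 x) = x
  hs : ∀ k x, τ k (δ k x) + δ (k + 1) (τ (k + 1) x) = x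
  dd : ∀ k x, δ k (δ (k + 1) x) = 0

lemma Cx.lift (C : Cx A) (k : ℕ) (x : (C.M (k + 1)).carrier) (h : C.δ k x = 0) :
    C.δ (k + 1) (C.τ (k + 1) x) = x := by
  have h1 := C.hs k x
  rwa [h, (C.bdd k).toIsLinearMap.map_zero, zero_add] at h1

theorem main (C C' : Cx A) (hC : ∀ k, Lifts (C.M (k + 1))) (hC' : ∀ k, Lifts (C'.M (k + 1)))
    (f0 : (C.M 0).carrier → (C'.M 0).carrier) (g0 : (C'.M 0).carrier → (C.M 0).carrier)
    (hf0 : LMod.IsHom _ _ f0) (hg0 : LMod.IsHom _ _ g0) (hgf : ∀ x, g0 (f0 x) = x) (k : ℕ) :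
    ∃ (f : (C.M k).carrier → (C'.M k).carrier) (g : (C'.M k).carrier → (C.M k).carrier)
      (h : (C.M k).carrier → (C.M (k + 1)).carrier),
      LMod.IsHom _ _ f ∧ LMod.IsHom _ _ g ∧ LMod.IsHom _ _ h ∧
      (∀ x, C'.δ k (C'.τ k (f (C.δ k x))) = f (C.δ k x)) ∧
      (∀ x, C.δ k (C.τ k (g (C'.δ k x))) = g (C'.δ k x)) ∧
      ∀ x, C.δ k (h (C.δ k x)) = C.δ k x - g (f (C.δ k x)) := by
  induction k with
  | zero =>
    refine ⟨f0, g0, fun _ => 0, hf0, hg0, hom_zero _ _, fun x => C'.h0 _, fun x => C.h0 _,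
      fun x => ?_⟩
    rw [hgf, sub_self]
    exact (C.hom 0).1.toIsLinearMap.map_zero
  | succ k ih =>
    obtain ⟨f, g, h, hf, hg, hh, ha, hb, hc⟩ := ih
    obtain ⟨f', hf', ef⟩ := hC k (C'.M (k + 1)) (C'.M k) (C'.δ k) (fun x => f (C.δ k x)) (C'.τ k)
      (C'.hom k) (hom_comp (C.hom k) hf) (C'.bdd k) ha
    obtain ⟨g', hg', eg⟩ := hC' k (C.M (k + 1)) (C.M k) (C.δ k) (fun x => g (C'.δ k x)) (C.τ k)
      (C.hom k) (hom_comp (C'.hom k) hg) (C.bdd k) hb
    have h1 : ∀ x, C.δ k (x - g' (f' x) - h (C.δ k x)) = 0 := by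
      intro x
      rw [(C.hom k).1.toIsLinearMap.map_sub, (C.hom k).1.toIsLinearMap.map_sub, eg, ef, hc]
      abel
    obtain ⟨h', hh', eh⟩ := hC k (C.M (k + 2)) (C.M (k + 1)) (C.δ (k + 1))
      (fun x => x - g' (f' x) - h (C.δ k x)) (C.τ (k + 1)) (C.hom (k + 1))
      (hom_sub (hom_sub (hom_id _) (hom_comp hf' hg')) (hom_comp (C.hom k) hh)) (C.bdd (k + 1))
      (fun x => C.lift k _ (h1 x))
    refine ⟨f', g', h', hf', hg', hh', fun x => ?_, fun x => ?_, fun x => ?_⟩
    · refine C'.lift k _ ?_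
      rw [ef, C.dd, hf.1.toIsLinearMap.map_zero]
    · refine C.lift k _ ?_
      rw [eg, C'.dd, hg.1.toIsLinearMap.map_zero]
    · rw [eh, C.dd, hh.1.toIsLinearMap.map_zero, sub_zero]

/-- The modules of a resolution, starting with the module which is resolved. -/
def QM {X : LMod A} (R : X.Resolution) : ℕ → LMod A
  | 0 => X
  | k + 1 => R.P k

/-- The complex of a resolution, starting with the module which is resolved. -/
def QC {X : LMod A} (R : X.Resolution) : Cx A where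
  M := QM R
  δ := fun k => match k with
    | 0 => R.ε
    | k + 1 => R.d k
  τ := fun k => match k with
    | 0 => R.s'
    | k + 1 => R.s k
  hom := fun k => match k with
    | 0 => R.ε_hom
    | k + 1 => R.d_hom k
  bdd := fun k => match k with
    | 0 => R.s'_bdd
    | k + 1 => R.s_bdd k
  h0 := R.ε_s
  hs := fun k => match k with
    | 0 => R.h_zero
    | k + 1 => R.h_succ k
  dd := fun k => match k with
    | 0 => R.ε_d
    | k + 1 => R.d_d k

end general

section group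

variable {G : Type u} [Group G]

/-- The operator of a group element on a module. -/
noncomputable def aa (M : LMod (Alg G)) (g : G) : M.carrier →L[ℂ] M.carrier :=
  (M.bdd.isBoundedLinearMap_right (dg1 g)).toContinuousLinearMap

lemma aa_apply (M : LMod (Alg G)) (g : G) (x : M.carrier) : aa M g x = M.act (dg1 g) x := rfl

lemma aa_mul (M : LMod (Alg G)) (g h : G) (x : M.carrier) :
    aa M (g * h) x = aa M g (aa M h x) := by
  rw [aa_apply, aa_apply, aa_apply, ← M.act_mul]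
  congr 1
  exact map_mul (H263R3.Arens.delta (H263R3.Arens.Weight.trivial G)) g h

lemma aa_bound (M : LMod (Alg G)) : ∃ C : ℝ, ∀ (g : G) (x : M.carrier), ‖aa M g x‖ ≤ C * ‖x‖ := by
  obtain ⟨C, hC, h⟩ := M.bdd.bound
  refine ⟨C, fun g x => ?_⟩
  have h1 := h (dg1 g) x
  rw [H263R3.Arens.norm_delta] at h1
  have h2 : (H263R3.Arens.Weight.trivial G).toFun g = 1 := rfl
  rw [h2, mul_one] at h1
  exact h1

variable (G) in
/-- The module `ℓ¹(G^k)`. -/
noncomputable def FM (hA : TaskAct.{u}) (k : ℕ) : LMod (Alg G) where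
  carrier := L (SS G k)
  act := Classical.choose (hA G (L (SS G k)) (fun g => rho g) (fun g h x => rho_mul g h x)
    (fun g x => norm_rho_le g x))
  bdd := (Classical.choose_spec (hA G (L (SS G k)) (fun g => rho g) (fun g h x => rho_mul g h x)
    (fun g x => norm_rho_le g x))).1
  act_mul := (Classical.choose_spec (hA G (L (SS G k)) (fun g => rho g)
    (fun g h x => rho_mul g h x) (fun g x => norm_rho_le g x))).2.1

lemma FM_act (hA : TaskAct.{u}) (k : ℕ) (g : G) (x : L (SS G k)) :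
    (FM G hA k).act (dg1 g) x = (rho g x : L (SS G k)) :=
  (Classical.choose_spec (hA G (L (SS G k)) (fun g => rho g)
    (fun g h x => rho_mul g h x) (fun g x => norm_rho_le g x))).2.2 g x

theorem FM_lifts (hA : TaskAct.{u}) (hH : TaskHom.{u}) (hF : TaskFree.{u}) (k : ℕ) :
    Lifts (FM G hA (k + 1)) := by
  intro Y Z D φ σ hD hφ hσ h
  obtain ⟨C1, h1⟩ := aa_bound Z
  obtain ⟨C2, h2⟩ := aa_bound Y
  let T : L (SS G (k + 1)) →L[ℂ] Z.carrier := hφ.1.toContinuousLinearMap
  have hT : ∀ f, T f = φ f := fun _ => rfl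
  have hTe : ∀ (g : G) f, T (rho g f) = aa Z g (T f) := by
    intro g f
    rw [hT, hT, aa_apply, ← hφ.2 (dg1 g) f]
    exact congrArg φ (FM_act hA (k + 1) g f).symm
  obtain ⟨T', hT', hT2⟩ := hF G k Z.carrier Y.carrier (aa Z) (aa Y) (max C1 C2)
    (fun g x => (h1 g x).trans (mul_le_mul_of_nonneg_right (le_max_left _ _) (norm_nonneg _)))
    (fun g x => (h2 g x).trans (mul_le_mul_of_nonneg_right (le_max_right _ _) (norm_nonneg _)))
    (aa_mul Z) (aa_mul Y) T hσ.toContinuousLinearMap hTe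
  refine ⟨T', hH G (FM G hA (k + 1)) Y T' T'.isBoundedLinearMap ?_, ?_⟩
  · intro g x
    have h3 := hT' g x
    rw [aa_apply] at h3
    rw [← h3]
    exact congrArg T' (FM_act hA (k + 1) g x)
  · have h4 : hD.1.toContinuousLinearMap.comp T' = T := by
      refine clm_ext (S := SS G (k + 1)) fun s => ?_
      obtain ⟨g, x⟩ : G × SS G k := s
      have h5 := hT2 g x
      rw [← hTe] at h5
      have h7 : D (σ (T (rho g⁻¹ (dl ((g, x) : SS G (k + 1)))))) =
          T (rho g⁻¹ (dl ((g, x) : SS G (k + 1)))) := h _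
      show D (T' (dl ((g, x) : SS G (k + 1)))) = T (dl ((g, x) : SS G (k + 1)))
      rw [h5]
      show D (aa Y g (σ (T (rho g⁻¹ (dl ((g, x) : SS G (k + 1))))))) =
        T (dl ((g, x) : SS G (k + 1)))
      rw [aa_apply, hD.2, h7, ← aa_apply, ← hTe, rho_rho_inv]
    intro p
    exact congrArg (fun S : L (SS G (k + 1)) →L[ℂ] Z.carrier => S p) h4

variable (G) in
/-- The complex of the spaces `ℓ¹(G^k)`. -/
noncomputable def FC (hA : TaskAct.{u}) (hH : TaskHom.{u}) (hC : TaskComplex.{u}) :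
    Cx (Alg G) where
  M := FM G hA
  δ := fun k => bd G k
  τ := fun k => jn G k 1
  hom := fun k => hH G (FM G hA (k + 1)) (FM G hA k) (bd G k) (bd G k).isBoundedLinearMap
    (fun g x => by
      have h1 := (hC G).2.2.2 k g x
      refine (congrArg (bd G k) (FM_act hA (k + 1) g x)).trans ?_
      rw [h1]
      exact (FM_act hA k g _).symm)
  bdd := fun k => (jn G k 1).isBoundedLinearMap
  h0 := (hC G).1
  hs := fun k x => by
    have h1 := (hC G).2.1 k x
    exact (add_comm _ _).trans h1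
  dd := (hC G).2.2.1

theorem rho_zero (g : G) (f : L (SS G 0)) : rho g f = f := by
  ext x
  rw [rho_apply]
  rfl

theorem comp : TaskAct.{u} → TaskHom.{u} → TaskFree.{u} → TaskComplex.{u} → TaskComp.{u} := by
  intro hA hH hF hC G _ X i hX n hR
  obtain ⟨R, hR⟩ := hR
  let pt : SS G 0 := PUnit.unit
  let F0 : L (SS G 0) →L[ℂ] X.carrier :=
    (i : ℂ →L[ℂ] X.carrier).comp (lp.evalCLM ℂ (fun _ : SS G 0 => ℂ) 1 pt)
  let G0 : X.carrier →L[ℂ] L (SS G 0) :=
    (ContinuousLinearMap.toSpanSingleton ℂ (dl pt : L (SS G 0))).comp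
      (i.symm : X.carrier →L[ℂ] ℂ)
  have hF0 : ∀ f, F0 f = i (f pt) := fun _ => rfl
  have hG0 : ∀ x, G0 x = i.symm x • (dl pt : L (SS G 0)) := fun _ => rfl
  have e1 : LMod.IsHom ((FC G hA hH hC).M 0) ((QC R).M 0) F0 := by
    refine hH G (FM G hA 0) X F0 F0.isBoundedLinearMap fun g x => ?_
    rw [hX]
    refine congrArg F0 ?_
    exact (FM_act hA 0 g x).trans (rho_zero g x)
  have e2 : LMod.IsHom ((QC R).M 0) ((FC G hA hH hC).M 0) G0 := by
    refine hH G X (FM G hA 0) G0 G0.isBoundedLinearMap fun g x => ?_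
    rw [hX]
    exact ((FM_act hA 0 g (G0 x)).trans (rho_zero g _)).symm
  have e3 : ∀ f, G0 (F0 f) = f := by
    intro f
    rw [hG0, hF0, ContinuousLinearEquiv.symm_apply_apply]
    ext x
    rw [lp.coeFn_smul, Pi.smul_apply]
    have : x = pt := rfl
    rw [this, dl_self, smul_eq_mul, mul_one]
  obtain ⟨f, g, h, hf, hg, hh, ha, hb, hc⟩ := main (FC G hA hH hC) (QC R)
    (fun k => FM_lifts hA hH hF k) (fun k => proj_lifts _ (R.projective k)) F0 G0 e1 e2 e3 (n + 1)
  have hz : ∀ x, f (bd G (n + 1) x) = 0 := by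
    intro x
    have h1 := ha x
    have : Subsingleton (R.P (n + 1)).carrier := hR (n + 1) (Nat.lt_succ_self n)
    have h2 : (QC R).τ (n + 1) (f ((FC G hA hH hC).δ (n + 1) x)) = 0 :=
      Subsingleton.elim (α := (R.P (n + 1)).carrier) _ _
    rw [h2, ((QC R).hom (n + 1)).1.toIsLinearMap.map_zero] at h1
    exact h1.symm
  let H : L (SS G (n + 1)) →L[ℂ] L (SS G (n + 2)) := hh.1.toContinuousLinearMap
  have hH2 : ∀ x, H x = h x := fun _ => rfl
  refine ⟨ContinuousLinearMap.id ℂ _ - (bd G (n + 1)).comp H, ?_, ?_, ?_⟩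
  · intro g x
    show rho g x - bd G (n + 1) (H (rho g x)) = rho g (x - bd G (n + 1) (H x))
    have h1 : H (rho g x) = rho g (H x) := by
      have h2 := hh.2 (dg1 g) x
      have h3 : h ((FM G hA (n + 1)).act (dg1 g) x) = (FM G hA (n + 2)).act (dg1 g) (h x) := h2
      rw [FM_act hA (n + 1) g x] at h3
      exact h3.trans (FM_act hA (n + 2) g (h x))
    rw [h1, (hC G).2.2.2, map_sub]
  · intro x
    show bd G (n + 1) x - bd G (n + 1) (H (bd G (n + 1) x)) = 0
    let w : L (SS G (n + 1)) := g (f (bd G (n + 1) x))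
    have h1 : bd G (n + 1) (H (bd G (n + 1) x)) = bd G (n + 1) x - w := hc x
    have h2 : w = 0 := (congrArg g (hz x)).trans hg.1.toIsLinearMap.map_zero
    rw [h1, h2, sub_zero, sub_self]
  · intro x
    show bd G n (x - bd G (n + 1) (H x)) = bd G n x
    rw [map_sub, (hC G).2.2.1, sub_zero]

end group

end Pool.Agent.H817R4.DF
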